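import Pool.Agent.F5S.Stmts

/-!
# F5S, rows KKF and PAR
-/

set_option autoImplicit false

open MeasureTheory Filter Topology

namespace Pool.Agent.F5S.H32

open Pool.Agent.BTL Pool.Agent.F5S

/-- the integrand of the kernel -/
noncomputable def FF (e : ℝ) (y : ℝ × ℝ) (s : ℝ) : ℝ :=
  tn ((y.1 + y.2 - s) / e) * (tn ((y.2 - s) / e) * tn (s / e))

theorem kk_eq (e : ℝ) (y : ℝ × ℝ) : kk e y = ∫ s, FF e y s := rfl

theorem FF_nonneg (tnf : TNFStmt) (e : ℝ) (y : ℝ × ℝ) (s : ℝ) : 0 ≤ FF e y s :=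
  mul_nonneg (tnf.1 _).1 (mul_nonneg (tnf.1 _).1 (tnf.1 _).1)

theorem FF_le (tnf : TNFStmt) (e : ℝ) (y : ℝ × ℝ) (s : ℝ) : FF e y s ≤ tn (s / e) := by
  unfold FF
  have h1 := tnf.1 ((y.1 + y.2 - s) / e)
  have h2 := tnf.1 ((y.2 - s) / e)
  have h3 := tnf.1 (s / e)
  have h4 : tn ((y.2 - s) / e) * tn (s / e) ≤ tn (s / e) := by
    have := mul_le_mul_of_nonneg_right h2.2 h3.1
    linarith
  have h5 : 0 ≤ tn ((y.2 - s) / e) * tn (s / e) := mul_nonneg h2.1 h3.1
  have h6 := mul_le_mul_of_nonneg_right h1.2 h5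
  linarith

theorem FF_cont (tnf : TNFStmt) (e : ℝ) : Continuous (fun p : (ℝ × ℝ) × ℝ => FF e p.1 p.2) := by
  have hc : Continuous tn := tnf.2.2.1
  unfold FF
  refine (hc.comp ?_).mul ((hc.comp ?_).mul (hc.comp ?_)) <;> fun_prop

theorem FF_int (tnf : TNFStmt) {e : ℝ} (he : 0 < e) (y : ℝ × ℝ) : Integrable (FF e y) := by
  obtain ⟨h1, -⟩ := tnf.2.2.2.2.2.2.1 e he
  refine h1.mono' ?_ (Eventually.of_forall fun s => ?_)
  · exact ((FF_cont tnf e).comp (continuous_const.prodMk continuous_id)).aestronglyMeasurable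
  · rw [Real.norm_of_nonneg (FF_nonneg tnf e y s)]
    exact FF_le tnf e y s

theorem tn_ne (tnf : TNFStmt) {e u : ℝ} (he : 0 < e) (h : tn (u / e) ≠ 0) : |u| < e := by
  have h1 : ¬ (1 ≤ |u / e|) := fun h2 => h (tnf.2.2.2.1 _ h2)
  push Not at h1
  rwa [abs_div, abs_of_pos he, div_lt_one he] at h1

theorem kkf (tnf : TNFStmt) : KKFStmt := by
  intro e he
  obtain ⟨i1, i2⟩ := tnf.2.2.2.2.2.2.1 e he
  refine ⟨fun y => ⟨?_, ?_⟩, ?_, ?_, fun y => FF_int tnf he y⟩
  · rw [kk_eq]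
    exact integral_nonneg fun s => FF_nonneg tnf e y s
  · rw [kk_eq]
    exact (integral_mono (FF_int tnf he y) i1 fun s => FF_le tnf e y s).trans i2.le
  · refine continuous_of_dominated (F := FF e) (bound := fun s => tn (s / e)) ?_ ?_ i1 ?_
    · intro y
      exact (FF_int tnf he y).aestronglyMeasurable
    · intro y
      refine Eventually.of_forall fun s => ?_
      rw [Real.norm_of_nonneg (FF_nonneg tnf e y s)]
      exact FF_le tnf e y s
    · refine Eventually.of_forall fun s => ?_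
      exact (FF_cont tnf e).comp (continuous_id.prodMk continuous_const)
  · intro y hy
    obtain ⟨s, hs⟩ : ∃ s, FF e y s ≠ 0 := by
      by_contra h
      push Not at h
      apply hy
      rw [kk_eq]
      have : FF e y = fun _ => 0 := funext h
      rw [this]
      simp
    have h1 := tn_ne tnf he (left_ne_zero_of_mul hs)
    have h2 := tn_ne tnf he (left_ne_zero_of_mul (right_ne_zero_of_mul hs))
    have h3 := tn_ne tnf he (right_ne_zero_of_mul (right_ne_zero_of_mul hs))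
    rw [abs_lt] at h1 h2 h3
    constructor
    · rw [abs_lt]
      constructor <;> linarith [h1.1, h1.2, h2.1, h2.2]
    · rw [abs_lt]
      constructor <;> linarith [h3.1, h3.2, h2.1, h2.2]

/-- the inner sum -/
noncomputable def IS (G : Finset (ℤ × ℤ)) (a b : ℝ) : ℝ :=
  ∑ g ∈ G, tn (a - ((g.1 + g.2 : ℤ) : ℝ)) * tn (b - (g.2 : ℝ))

theorem sum_kk (tnf : TNFStmt) {e : ℝ} (he : 0 < e) (y : ℝ × ℝ) (G : Finset (ℤ × ℤ)) :
    ∑ g ∈ G, kk e (y - sc e g) = ∫ s, tn (s / e) * IS G ((y.1 + y.2 - s) / e) ((y.2 - s) / e) := by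
  have h1 : ∑ g ∈ G, kk e (y - sc e g) = ∫ s, ∑ g ∈ G, FF e (y - sc e g) s := by
    rw [integral_finsetSum]
    · rfl
    · intro g _
      exact FF_int tnf he _
  rw [h1]
  refine integral_congr_ae (Eventually.of_forall fun s => ?_)
  show ∑ g ∈ G, FF e (y - sc e g) s = tn (s / e) * IS G ((y.1 + y.2 - s) / e) ((y.2 - s) / e)
  unfold IS
  rw [Finset.mul_sum]
  refine Finset.sum_congr rfl fun g _ => ?_
  unfold FF
  have e1 : ((y - sc e g).1 + (y - sc e g).2 - s) / e =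
      (y.1 + y.2 - s) / e - ((g.1 + g.2 : ℤ) : ℝ) := by
    show (y.1 - e * g.1 + (y.2 - e * g.2) - s) / e = _
    push_cast
    field_simp
    ring
  have e2 : ((y - sc e g).2 - s) / e = (y.2 - s) / e - (g.2 : ℝ) := by
    show (y.2 - e * g.2 - s) / e = _
    field_simp
    ring
  rw [e1, e2]
  ring

theorem IS_nonneg (tnf : TNFStmt) (G : Finset (ℤ × ℤ)) (a b : ℝ) : 0 ≤ IS G a b :=
  Finset.sum_nonneg fun _ _ => mul_nonneg (tnf.1 _).1 (tnf.1 _).1

theorem IS_image (G : Finset (ℤ × ℤ)) (a b : ℝ) :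
    IS G a b = ∑ m ∈ G.image (fun g : ℤ × ℤ => (g.1 + g.2, g.2)),
      tn (a - (m.1 : ℝ)) * tn (b - (m.2 : ℝ)) := by
  rw [Finset.sum_image]
  · rfl
  · intro g _ g' _ h
    have h1 := congrArg Prod.fst h
    have h2 := congrArg Prod.snd h
    simp only at h1 h2
    apply Prod.ext
    · omega
    · exact h2

theorem IS_le (tnf : TNFStmt) (G : Finset (ℤ × ℤ)) (a b : ℝ) : IS G a b ≤ 1 := by
  rw [IS_image]
  set G' := G.image (fun g : ℤ × ℤ => (g.1 + g.2, g.2)) with hG'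
  have h1 : G' ⊆ (G'.image Prod.fst) ×ˢ (G'.image Prod.snd) := by
    intro m hm
    rw [Finset.mem_product]
    exact ⟨Finset.mem_image_of_mem _ hm, Finset.mem_image_of_mem _ hm⟩
  refine (Finset.sum_le_sum_of_subset_of_nonneg h1
    fun _ _ _ => mul_nonneg (tnf.1 _).1 (tnf.1 _).1).trans ?_
  rw [Finset.sum_product]
  dsimp only
  rw [← Finset.sum_mul_sum]
  have h2 := (tnf.2.2.2.2.2.2.2 a (G'.image Prod.fst)).1
  have h3 := (tnf.2.2.2.2.2.2.2 b (G'.image Prod.snd)).1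
  have h4 : 0 ≤ ∑ n ∈ G'.image Prod.fst, tn (a - (n : ℝ)) :=
    Finset.sum_nonneg fun _ _ => (tnf.1 _).1
  have h5 : 0 ≤ ∑ n ∈ G'.image Prod.snd, tn (b - (n : ℝ)) :=
    Finset.sum_nonneg fun _ _ => (tnf.1 _).1
  calc _ ≤ (1 : ℝ) * 1 := mul_le_mul h2 h3 h5 zero_le_one
    _ = 1 := one_mul 1

theorem IS_box (tnf : TNFStmt) (A B : Finset ℤ) (a b : ℝ)
    (hA : ∀ n : ℤ, tn (a - n) ≠ 0 → n ∈ A) (hB : ∀ n : ℤ, tn (b - n) ≠ 0 → n ∈ B) :
    IS ((A ×ˢ B).image (fun m : ℤ × ℤ => (m.1 - m.2, m.2))) a b = 1 := by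
  have h0 : ((A ×ˢ B).image (fun m : ℤ × ℤ => (m.1 - m.2, m.2))).image
      (fun g : ℤ × ℤ => (g.1 + g.2, g.2)) = A ×ˢ B := by
    rw [Finset.image_image]
    have : ((fun g : ℤ × ℤ => (g.1 + g.2, g.2)) ∘ fun m : ℤ × ℤ => (m.1 - m.2, m.2)) = id := by
      funext m
      show (m.1 - m.2 + m.2, m.2) = m
      rw [sub_add_cancel]
    rw [this, Finset.image_id]
  rw [IS_image, h0, Finset.sum_product]
  dsimp only
  rw [← Finset.sum_mul_sum, (tnf.2.2.2.2.2.2.2 a A).2 hA, (tnf.2.2.2.2.2.2.2 b B).2 hB, one_mul]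

theorem mem_box {e u : ℝ} (he : 0 < e) (n : ℤ) {k : ℤ} (h : |u - e * n| < k * e) :
    n ∈ Finset.Icc (⌊u / e⌋ - k) (⌊u / e⌋ + k + 1) := by
  rw [abs_lt] at h
  have h1 : u / e - n < k := by
    rw [sub_lt_iff_lt_add, div_lt_iff₀ he]
    linarith [h.2]
  have h2 : -(k : ℝ) < u / e - n := by
    rw [lt_sub_iff_add_lt, lt_div_iff₀ he]
    linarith [h.1]
  have h3 := Int.floor_le (u / e)
  have h4 := Int.lt_floor_add_one (u / e)
  rw [Finset.mem_Icc]
  constructor
  · have h5 : ((⌊u / e⌋ - k : ℤ) : ℝ) < (n : ℝ) + 1 := by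
      push_cast
      linarith
    have h6 : ⌊u / e⌋ - k < n + 1 := by exact_mod_cast h5
    omega
  · have h5 : (n : ℝ) < ((⌊u / e⌋ + k + 1 : ℤ) : ℝ) := by
      push_cast
      linarith
    have h6 : n < ⌊u / e⌋ + k + 1 := by exact_mod_cast h5
    omega

theorem par (tnf : TNFStmt) (kkf : KKFStmt) : PARStmt := by
  intro e he y G
  obtain ⟨i1, i2⟩ := tnf.2.2.2.2.2.2.1 e he
  have hc : Continuous tn := tnf.2.2.1
  obtain ⟨-, -, k3, -⟩ := kkf e he
  constructor
  · rw [sum_kk tnf he]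
    refine le_trans ?_ i2.le
    refine integral_mono_of_nonneg (Eventually.of_forall fun s => ?_) i1
      (Eventually.of_forall fun s => ?_)
    · exact mul_nonneg (tnf.1 _).1 (IS_nonneg tnf _ _ _)
    · have := mul_le_mul_of_nonneg_left (IS_le tnf G ((y.1 + y.2 - s) / e) ((y.2 - s) / e))
        (tnf.1 (s / e)).1
      rw [mul_one] at this
      exact this
  · intro hG
    set A := Finset.Icc (⌊(y.1 + y.2) / e⌋ - 4) (⌊(y.1 + y.2) / e⌋ + 4 + 1) with hA
    set B := Finset.Icc (⌊y.2 / e⌋ - 4) (⌊y.2 / e⌋ + 4 + 1) with hB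
    set G3 := (A ×ˢ B).image (fun m : ℤ × ℤ => (m.1 - m.2, m.2)) with hG3
    have hmem : ∀ g : ℤ × ℤ, kk e (y - sc e g) ≠ 0 → g ∈ G3 := by
      intro g hg
      obtain ⟨h1, h2⟩ := k3 _ hg
      have h1' : |y.1 - e * g.1| < 2 * e := h1
      have h2' : |y.2 - e * g.2| < 2 * e := h2
      rw [hG3, Finset.mem_image]
      refine ⟨(g.1 + g.2, g.2), ?_, by show (g.1 + g.2 - g.2, g.2) = g; rw [add_sub_cancel_right]⟩
      rw [Finset.mem_product]
      constructor
      · apply mem_box he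
        rw [abs_lt] at h1' h2' ⊢
        push_cast
        constructor <;> linarith [h1'.1, h1'.2, h2'.1, h2'.2]
      · apply mem_box he
        rw [abs_lt] at h2' ⊢
        push_cast
        constructor <;> linarith [h2'.1, h2'.2]
    have hsub : ∀ G₁ G₂ : Finset (ℤ × ℤ), (∀ g : ℤ × ℤ, kk e (y - sc e g) ≠ 0 → g ∈ G₁) →
        ∑ g ∈ G₁, kk e (y - sc e g) = ∑ g ∈ G₁ ∪ G₂, kk e (y - sc e g) := by
      intro G₁ G₂ h
      refine Finset.sum_subset Finset.subset_union_left fun g _ hg => ?_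
      by_contra h'
      exact hg (h g h')
    rw [hsub G G3 hG, Finset.union_comm, ← hsub G3 G hmem, sum_kk tnf he]
    have h2 : (∫ s, tn (s / e) * IS G3 ((y.1 + y.2 - s) / e) ((y.2 - s) / e)) =
        ∫ s, tn (s / e) := by
      refine integral_congr_ae (Eventually.of_forall fun s => ?_)
      show tn (s / e) * IS G3 ((y.1 + y.2 - s) / e) ((y.2 - s) / e) = tn (s / e)
      by_cases hs : tn (s / e) = 0
      · rw [hs, zero_mul]
      · have hs' := tn_ne tnf he hs
        have h3 : IS G3 ((y.1 + y.2 - s) / e) ((y.2 - s) / e) = 1 := by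
          apply IS_box tnf
          · intro n hn
            have e1 : (y.1 + y.2 - s) / e - n = (y.1 + y.2 - s - e * n) / e := by
              field_simp
            rw [e1] at hn
            have h4 := tn_ne tnf he hn
            apply mem_box he
            rw [abs_lt] at h4 hs' ⊢
            push_cast
            constructor <;> linarith [h4.1, h4.2, hs'.1, hs'.2]
          · intro n hn
            have e1 : (y.2 - s) / e - n = (y.2 - s - e * n) / e := by
              field_simp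
            rw [e1] at hn
            have h4 := tn_ne tnf he hn
            apply mem_box he
            rw [abs_lt] at h4 hs' ⊢
            push_cast
            constructor <;> linarith [h4.1, h4.2, hs'.1, hs'.2]
        rw [h3, mul_one]
    rw [h2, i2]

end Pool.Agent.F5S.H32
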